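import Mathlib
import Pool.Agent.H.MP_6e75db_lc.A

set_option autoImplicit false

namespace Pool.Agent.H.MP_6a38e0_lc

open Set Filter Function Cardinal Ordinal Pool.Agent.H.MP_77d395_lc Pool.Agent.H.MP_6e75db_lc

/-- the translates of `B` by the points of `X` are pairwise disjoint -/
def DT (B X : Set ℝ) : Prop := X.Pairwise fun x y => Disjoint ((· + x) '' B) ((· + y) '' B)

abbrev K := ℕ × ℕ → Bool

def r (u : K) (a b : ℕ) : Prop := u (a, b) = true

def N (u : K) (f : ℕ → ℕ) : Prop :=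
  (∀ a b, ¬ r u a b → ¬ r u b a → a = b) → ∀ n, r u (f (n + 1)) (f n)

def Hm (u v : K) (f : ℕ → ℕ) : Prop := ∀ a b, r u a b → r v (f a) (f b)

theorem wo (u : K) : IsWellOrder ℕ (r u) ↔ ∀ f, ¬ N u f :=
  ⟨fun h f n => (wellFounded_iff_isEmpty_descending_chain.1 h.wf).elim ⟨f, n h.trichotomous⟩,
    fun h => @IsWellOrder.mk _ _ ⟨wellFounded_iff_isEmpty_descending_chain.2
      ⟨fun f => h f.1 fun _ => f.2⟩⟩ ⟨by_contra fun t => h id fun s => (t s).elim⟩⟩

theorem rk : ∃ (W : Set K) (ρ : K → I), ¬ (ρ '' W).Countable ∧ ∀ u v,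
    ¬ (u ∈ W ∧ v ∈ W ∧ ρ u ≠ ρ v) ↔ ∃ f g, N u f ∨ N v f ∨ Hm u v f ∧ Hm v u g := by
  classical
  have l : ∀ u (h : IsWellOrder ℕ (r u)), type (r u) ∈ Iio (ω₁ : Ordinal.{0}) := fun u h =>
    mem_Iio.2 (lt_omega_iff_card_lt.2 (mk_nat.trans_lt aleph0_lt_aleph_one))
  refine ⟨{u | IsWellOrder ℕ (r u)}, fun u => if h : IsWellOrder ℕ (r u) then
    ToType.mk ⟨_, l u h⟩ else o, fun c => ?_, fun u v => ?_⟩
  · obtain ⟨b, hb⟩ := bd c
    obtain ⟨e⟩ := Cardinal.eq.1 (show #ℕ = #(max b.toOrd.1 ω).ToType by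
      have := lt_aleph_one_iff.1 (lt_omega_iff_card_lt.1 (mem_Iio.1 b.toOrd.2))
      rcases le_total b.toOrd.1 ω with h | h
      · simp [h]
      simpa [h] using (aleph0_le_card.2 h).antisymm this)
    have i : r (fun p => decide (e p.1 < e p.2)) ≃r (· < ·) := ⟨e, by simp [r]⟩
    have w := i.toRelEmbedding.isWellOrder
    have := Subtype.coe_lt_coe.2 (ToType.mk.lt_symm_apply.2 (hb _ ⟨_, w, dif_pos w⟩))
    exact this.not_ge ((le_max_left _ _).trans_eq ((type_eq.2 ⟨i⟩).trans (type_toType _)).symm)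
  by_cases p : IsWellOrder ℕ (r u)
  swap
  · obtain ⟨f, q⟩ := not_forall_not.1 (mt (wo u).2 p)
    exact iff_of_true (fun h => p h.1) ⟨f, f, .inl q⟩
  by_cases q : IsWellOrder ℕ (r v)
  swap
  · obtain ⟨f, s⟩ := not_forall_not.1 (mt (wo v).2 q)
    exact iff_of_true (fun h => q h.2.1) ⟨f, f, .inr (.inl s)⟩
  simp only [mem_ofPred_eq, p, q, dif_pos, true_and, not_not, (wo u).1 p, (wo v).1 q, false_or,
    EmbeddingLike.apply_eq_iff_eq, Subtype.mk.injEq, ne_eq]
  exact ⟨fun h => let ⟨i⟩ := type_eq.1 h; ⟨i, i.symm, fun _ _ => i.map_rel_iff.2,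
    fun _ _ => i.symm.map_rel_iff.2⟩, fun ⟨f, g, a, b⟩ => le_antisymm
      (type_le_iff'.2 ⟨.ofMonotone f a⟩) (type_le_iff'.2 ⟨.ofMonotone g b⟩)⟩

noncomputable def L (c : ℕ → ℝ) : ℝ := ∑' n, c n / 64 ^ n

theorem gs : HasSum (fun n : ℕ => (1 : ℝ) / 64 ^ n) (64 / 63) := by
  convert hasSum_geometric_of_lt_one (r := (1 / 64 : ℝ)) (by norm_num) (by norm_num) using 1
  · ext n; simp
  norm_num

theorem sm {c : ℕ → ℝ} (h : ∀ n, c n ∈ Icc (0 : ℝ) 1) : Summable fun n => c n / 64 ^ n :=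
  gs.summable.of_nonneg_of_le (fun n => div_nonneg (h n).1 (by positivity)) fun n => by
    gcongr; exact (h n).2

theorem tl {c : ℕ → ℝ} (h : ∀ n, c n ∈ Icc (0 : ℝ) 1) (k : ℕ) : 64 ^ k * L c -
    64 ^ k * ∑ n ∈ Finset.range (k + 1), c n / 64 ^ n ∈ Icc (0 : ℝ) (1 / 63) := by
  have e : 64 ^ k * L c - 64 ^ k * ∑ n ∈ Finset.range (k + 1), c n / 64 ^ n =
      L (fun n => c (n + (k + 1))) / 64 := by
    rw [L, ← (sm h).sum_add_tsum_nat_add (k + 1), mul_add, add_sub_cancel_left, L, ← tsum_mul_left,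
      ← tsum_div_const]
    exact tsum_congr fun n => by field_simp; ring
  have a : 0 ≤ L fun n => c (n + (k + 1)) := tsum_nonneg fun n => div_nonneg (h _).1 (by positivity)
  have b : (L fun n => c (n + (k + 1))) ≤ 64 / 63 := ((sm fun n => h _).tsum_le_tsum (fun n => by
    gcongr; exact (h _).2) gs.summable).trans_eq gs.tsum_eq
  exact e ▸ ⟨by positivity, by linarith⟩

theorem dg {d : ℕ → ℤ} (h : ∀ n, d n = 0 ∨ d n = 1) (k : ℕ) :
    ∃ m : ℤ, 64 ^ k * L (fun n => d n) - (64 * m + d k : ℤ) ∈ Icc (0 : ℝ) (1 / 63) := by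
  have : ∃ m : ℤ, (64 : ℝ) ^ k * ∑ n ∈ Finset.range (k + 1), (d n : ℝ) / 64 ^ n =
      (64 * m + d k : ℤ) := by
    induction k with
    | zero => exact ⟨0, by simp⟩
    | succ k ih =>
      obtain ⟨m, e⟩ := ih
      refine ⟨64 * m + d k, ?_⟩
      rw [Finset.sum_range_succ, mul_add, pow_succ', mul_assoc, e]
      push_cast
      field_simp
  obtain ⟨m, e⟩ := this
  exact ⟨m, e ▸ tl (fun n => by rcases h n with e | e <;> simp [e]) k⟩

theorem ind : ∃ h : K → ℝ, Continuous h ∧ (∀ u v k, ∃ m : ℤ, |64 ^ k * (h u - h v) - m| < 1 / 4) ∧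
    ∀ a b c x y z, h a + h b + h c = h x + h y + h z → a = x ∨ a = y ∨ a = z := by
  classical
  obtain ⟨e, he⟩ := exists_surjective_nat (Finset ((ℕ × ℕ) × Bool))
  let d : K → ℕ → ℤ := fun u n => ∏ p ∈ e n, if u p.1 = p.2 then 1 else 0
  have d1 : ∀ u n, d u n = if ∀ p ∈ e n, u p.1 = p.2 then 1 else 0 := fun u n => Finset.prod_boole
  have d2 : ∀ u n, d u n = 0 ∨ d u n = 1 := fun u n => by rw [d1]; split_ifs <;> simp
  refine ⟨fun u => L (fun n => d u n) / 8, (continuous_tsum (fun n => ?_) gs.summable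
    fun n u => ?_).div_const _, fun u v k => ?_, fun a b c x y z p => ?_⟩
  · exact (Int.cast_continuous.comp (continuous_finsetProd _ fun p _ =>
      (continuous_of_discreteTopology (f := fun b : Bool => if b = p.2 then (1 : ℤ) else 0)).comp
        (continuous_apply p.1))).div_const _
  · rcases d2 u n with e | e <;> simp [e]
  · obtain ⟨m, p, q⟩ := dg (d2 u) k
    obtain ⟨n, s, t⟩ := dg (d2 v) k
    refine ⟨8 * (m - n), abs_lt.2 ?_⟩
    rcases d2 u k with e | e <;> rcases d2 v k with f | f <;> rw [e] at p q <;> rw [f] at s t <;>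
      push_cast at * <;> constructor <;> linarith
  by_contra! n
  obtain ⟨i, hi⟩ := ne_iff.1 n.1
  obtain ⟨j, hj⟩ := ne_iff.1 n.2.1
  obtain ⟨l, hl⟩ := ne_iff.1 n.2.2
  obtain ⟨k, hk⟩ := he {(i, a i), (j, a j), (l, a l)}
  have e1 : d a k = 1 := by simp [d1, hk]
  have e2 : d x k = 0 := by simp [d1, hk, hi.symm]
  have e3 : d y k = 0 := by simp [d1, hk, hj.symm]
  have e4 : d z k = 0 := by simp [d1, hk, hl.symm]
  choose m m1 m2 using fun u => dg (d2 u) k
  have q : (64 : ℝ) ^ k * L (fun n => d a n) + 64 ^ k * L (fun n => d b n) +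
      64 ^ k * L (fun n => d c n) = 64 ^ k * L (fun n => d x n) + 64 ^ k * L (fun n => d y n) +
        64 ^ k * L (fun n => d z n) := by linear_combination 8 * 64 ^ k * p
  have : |((64 * m a + d a k + (64 * m b + d b k) + (64 * m c + d c k) - (64 * m x + d x k) -
      (64 * m y + d y k) - (64 * m z + d z k) : ℤ) : ℝ)| < 1 := by
    simp only [Int.cast_sub, Int.cast_add (64 * m _ + _ + _), Int.cast_add (64 * m _ + _)]
    exact abs_lt.2 ⟨by linarith [m1 a, m1 b, m1 c, m2 a, m2 b, m2 c, m1 x, m1 y, m1 z],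
      by linarith [m1 a, m1 b, m1 c, m2 x, m2 y, m2 z]⟩
  have := abs_lt.1 (show |_| < (1 : ℤ) by exact_mod_cast this)
  have := d2 b k
  have := d2 c k
  omega

theorem sp {T : Type} [MeasurableSpace T] [StandardBorelSpace T] {φ : T → ℝ} (hφ : Measurable φ) :
    ∃ g : T → ℝ, Measurable g ∧ ∀ s t, s ≠ t → ∀ a ∈ ({g s, g s + φ s} : Set ℝ),
      ∀ b ∈ ({g t, g t + φ t} : Set ℝ), ∃ k, ∀ m : ℤ, 1 / 4 ≤ |64 ^ k * (a - b) - m| := by
  obtain ⟨e, e1, e2⟩ := MeasurableSpace.measurable_injection_nat_bool_of_countablySeparated T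
  obtain ⟨q, hq⟩ := exists_surjective_nat (ℕ × Bool × Bool)
  let y (k : ℕ) (t : T) : ℝ := bif e t (q k).1 then 1 / 2 - 64 ^ k * bif (q k).2.1 then φ t else 0
    else -(64 ^ k * bif (q k).2.2 then φ t else 0)
  have y1 : ∀ k, Measurable (y k) := fun k => by
    have : ∀ b : Bool, Measurable fun t => bif b then φ t else 0 := fun b => by
      cases b
      exacts [measurable_const, hφ]
    simp only [y, Bool.cond_eq_ite (e _ _)]
    exact .ite (((measurable_pi_apply _).comp e1) (measurableSet_singleton true))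
      (((this _).const_mul _).const_sub _) ((this _).const_mul _).neg
  let x : ℕ → T → ℝ := Nat.rec 0 fun k x t => x t + Int.fract (y k t - 64 ^ k * x t) / 64 ^ k
  let c (t : T) (k : ℕ) : ℝ := Int.fract (y k t - 64 ^ k * x k t)
  have c1 : ∀ t k, c t k ∈ Icc (0 : ℝ) 1 := fun t k => ⟨Int.fract_nonneg _, (Int.fract_lt_one _).le⟩
  have x1 : ∀ t k, ∑ n ∈ Finset.range k, c t n / 64 ^ n = x k t := fun t k =>
    k.rec rfl fun k ih => (Finset.sum_range_succ _ _).trans (congrArg (· + _) ih)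
  have x2 : ∀ k, Measurable (x k) := fun k => k.rec measurable_const fun k ih =>
    ih.add (((y1 k).sub (ih.const_mul _)).fract.div_const _)
  have z : ∀ t k, ∃ m : ℤ, 64 ^ k * L (c t) - y k t + m ∈ Icc (0 : ℝ) (1 / 63) := fun t k => by
    refine ⟨⌊y k t - 64 ^ k * x k t⌋, ?_⟩
    convert tl (c1 t) k using 1
    rw [Finset.sum_range_succ, x1, mul_add, mul_div_cancel₀ _ (by positivity)]
    simp only [c, Int.fract]
    ring
  refine ⟨fun t => L (c t), measurable_of_tendsto_metrizable x2 (tendsto_pi_nhds.2 fun t =>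
    (sm (c1 t)).hasSum.tendsto_sum_nat.congr (x1 t)), ?_⟩
  suffices ∀ s t j, e s j = true → e t j = false → ∀ a ∈ ({L (c s), L (c s) + φ s} : Set ℝ),
      ∀ b ∈ ({L (c t), L (c t) + φ t} : Set ℝ), ∃ k, ∀ m : ℤ, 1 / 4 ≤ |64 ^ k * (a - b) - m| by
    intro s t n a p b u
    obtain ⟨j, w⟩ := ne_iff.1 (e2.ne n)
    cases v : e s j
    · exact (this t s j (by simpa [v] using w) v b u a p).imp fun k h m => (h (-m)).trans_eq
        (by rw [← abs_neg]; push_cast; ring_nf)
    exact this s t j v (by simpa [v] using w) a p b u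
  intro s t j u v a p b w
  obtain ⟨i, rfl⟩ : ∃ i : Bool, a = L (c s) + bif i then φ s else 0 :=
    p.elim (fun e => ⟨false, by simpa using e⟩) fun e => ⟨true, e⟩
  obtain ⟨l, rfl⟩ : ∃ i : Bool, b = L (c t) + bif i then φ t else 0 :=
    w.elim (fun e => ⟨false, by simpa using e⟩) fun e => ⟨true, e⟩
  obtain ⟨k, hk⟩ := hq (j, i, l)
  obtain ⟨m, m1, m2⟩ := z s k
  obtain ⟨n, n1, n2⟩ := z t k
  simp only [y, hk, u, v, cond_true, cond_false] at m1 m2 n1 n2
  refine ⟨k, fun o => not_lt.1 fun h => ?_⟩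
  obtain ⟨h1, h2⟩ := abs_lt.1 h
  have : ((-1 : ℤ) : ℝ) < (n - m - o : ℤ) := by push_cast; linarith
  have : ((n - m - o : ℤ) : ℝ) < (0 : ℤ) := by push_cast; linarith
  have := Int.cast_lt.1 this
  have := Int.cast_lt.1 ‹((-1 : ℤ) : ℝ) < _›
  omega

theorem main : ∃ B : Set ℝ, MeasurableSet B ∧ (∃ X, ¬ X.Countable ∧ DT B X) ∧
    ∀ X, DT B X → #X ≤ ℵ₁ := by
  classical
  obtain ⟨W, ρ, u, hW⟩ := rk
  obtain ⟨h, h1, h2, h3⟩ := ind
  have i2 : ∀ a b x y, h a + h b = h x + h y → a = x ∨ a = y := fun a b x y e =>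
    (h3 a b x x y x (by rw [e])).elim .inl fun q => q.symm
  have i1 : Injective h := fun a x e => (i2 a a x x (by rw [e])).elim id id
  let P := range fun p : K × K => h p.1 - h p.2
  let T := ℝ × K × K × (ℕ → ℕ) × (ℕ → ℕ)
  let φ : T → ℝ := fun t => if t.1 ∈ P then if N t.2.1 t.2.2.2.1 ∨ N t.2.2.1 t.2.2.2.1 ∨
    Hm t.2.1 t.2.2.1 t.2.2.2.1 ∧ Hm t.2.2.1 t.2.1 t.2.2.2.2 then h t.2.1 - h t.2.2.1 else 0 else t.1
  have mr : ∀ {u : T → K} {a b : T → ℕ}, Measurable u → Measurable a → Measurable b →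
      Measurable fun t => r (u t) (a t) (b t) := fun p q s => measurableSet_setOfPred.1
    (((measurable_from_prod_countable_left (f := fun p : K × ℕ × ℕ => p.1 p.2) fun j =>
      measurable_pi_apply j).comp (p.prodMk (q.prodMk s))) (measurableSet_singleton true))
  have mN : ∀ {u : T → K} {f : T → ℕ → ℕ}, Measurable u → Measurable f →
      Measurable fun t => N (u t) (f t) := fun p q => .imp (.forall fun a => .forall fun b =>
    (mr p measurable_const measurable_const).not.imp ((mr p measurable_const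
      measurable_const).not.imp measurable_const)) (.forall fun n => mr p (q.eval) q.eval)
  have mH : ∀ {u v : T → K} {f : T → ℕ → ℕ}, Measurable u → Measurable v → Measurable f →
      Measurable fun t => Hm (u t) (v t) (f t) := fun p s q => .forall fun a => .forall fun b =>
    (mr p measurable_const measurable_const).imp (mr s q.eval q.eval)
  have hφ : Measurable φ := .ite (measurable_fst (isCompact_range (by fun_prop)).measurableSet)
    (.ite (((mN (by fun_prop) (by fun_prop)).or ((mN (by fun_prop) (by fun_prop)).or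
      ((mH (by fun_prop) (by fun_prop) (by fun_prop)).and (mH (by fun_prop) (by fun_prop)
        (by fun_prop))))).setOf) ((h1.measurable.comp (by fun_prop)).sub
          (h1.measurable.comp (by fun_prop))) measurable_const) measurable_fst
  obtain ⟨g, g1, g2⟩ := sp hφ
  have g3 : ∀ s t, ∀ a ∈ ({g s, g s + φ s} : Set ℝ), ∀ b ∈ ({g t, g t + φ t} : Set ℝ),
      ∀ u v, a - b = h u - h v → s = t := fun s t a p b q u v e => by_contra fun n =>
    let ⟨k, w⟩ := g2 s t n a p b q; let ⟨m, z⟩ := h2 u v k; (w m).not_gt (e ▸ z)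
  have f1 : ∀ t, ∀ u ∈ W, ∀ v ∈ W, ρ u ≠ ρ v → φ t ≠ h u - h v := fun t u p v q n e => by
    have z : u ≠ v := fun e => n (e ▸ rfl)
    simp only [φ] at e
    split_ifs at e with a b
    · obtain rfl := (i2 u t.2.2.1 t.2.1 v (by linarith)).resolve_right z
      obtain rfl := i1 (sub_right_inj.1 e)
      exact (hW _ _).2 ⟨_, _, b⟩ ⟨p, q, n⟩
    · exact z (i1 (sub_eq_zero.1 e.symm))
    exact a ⟨(u, v), e.symm⟩
  refine ⟨range g ∪ range fun t => g t + φ t, .union (g1.measurableEmbedding fun s t e =>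
    g3 s t _ (.inl rfl) _ (.inl rfl) default default (by simp [e])).measurableSet_range
      ((g1.add hφ).measurableEmbedding fun s t e => g3 s t _ (.inr rfl) _ (.inr rfl) default
        default (by simpa [sub_eq_zero] using e)).measurableSet_range, ?_, fun X d => ?_⟩
  · obtain ⟨Y, y1, y2⟩ := exists_subset_bijOn W ρ
    refine ⟨h '' Y, fun c => u (y2.image_eq ▸ (countable_of_injective_of_countable_image
      i1.injOn c).image ρ), ?_⟩
    rintro _ ⟨a, p, rfl⟩ _ ⟨b, q, rfl⟩ n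
    have z : ρ a ≠ ρ b := fun e => n (congrArg h (y2.injOn p q e))
    refine disjoint_left.2 ?_
    rintro _ ⟨x, x1, rfl⟩ ⟨y, x2, e⟩
    obtain ⟨s, s1⟩ : ∃ s, x ∈ ({g s, g s + φ s} : Set ℝ) :=
      x1.elim (·.imp fun _ e => .inl e.symm) (·.imp fun _ e => .inr e.symm)
    obtain ⟨t, t1⟩ : ∃ s, y ∈ ({g s, g s + φ s} : Set ℝ) :=
      x2.elim (·.imp fun _ e => .inl e.symm) (·.imp fun _ e => .inr e.symm)
    beta_reduce at e
    obtain rfl := g3 s t x s1 y t1 b a (by linarith)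
    rcases s1 with rfl | rfl <;> rcases t1 with rfl | rfl
    · exact n (by linarith)
    · exact f1 s a (y1 p) b (y1 q) z (by linarith)
    · exact f1 s b (y1 q) a (y1 p) z.symm (by linarith)
    exact n (by linarith)
  have E : ∀ x ∈ X, ∀ y ∈ X, x ≠ y → ∃ a b, ρ a ≠ ρ b ∧ x - y = h a - h b := fun x p y q n => by
    by_contra! k
    obtain ⟨t, e⟩ : ∃ t, φ t = x - y := by
      by_cases a : x - y ∈ P
      · obtain ⟨⟨a, b⟩, e⟩ := id a
        obtain ⟨f, f', w⟩ := (hW a b).1 fun w => k a b w.2.2 e.symm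
        exact ⟨(x - y, a, b, f, f'), ((if_pos ‹_›).trans (if_pos w)).trans e⟩
      exact ⟨(x - y, default), if_neg a⟩
    exact disjoint_left.1 (d p q n) ⟨g t, .inl ⟨t, rfl⟩, rfl⟩
      ⟨_, .inr ⟨t, rfl⟩, by simp only [e]; ring⟩
  rcases X.eq_empty_or_nonempty with rfl | ⟨x, p⟩
  · simp
  choose! a b ab e using fun y q => E y q x p
  refine (mk_le_mk_of_subset (subset_insert_sdiff_singleton x X)).trans (mk_insert_le.trans ?_)
  refine (add_le_add_left (mk_le_of_injective (f := fun y : ↥(X \ {x}) => (ρ (a y), ρ (b y)))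
    fun ⟨y, q, s⟩ ⟨z, t, v⟩ w => Subtype.ext (by_contra fun n => ?_)) 1).trans (by simp)
  obtain ⟨c, f, j, l⟩ := E y q z t n
  have e1 := e y q s
  have e2 := e z t v
  obtain ⟨w1, w2⟩ := Prod.mk.inj w
  rcases h3 (a y) (b z) f (b y) (a z) c (by linarith) with k | k | k
  · exact ab y q s (congrArg ρ k)
  · rcases i2 (b z) f (b y) c (by rw [k] at e1; linarith) with i | i
    · exact n (by rw [k, ← i] at e1; linarith)
    exact j (by rw [← i, i1 (show h f = h (b y) by rw [k] at e1; rw [← i] at l; linarith), w2])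
  rcases i2 (b z) f (b y) (a z) (by rw [k] at e1; linarith) with i | i
  · exact j (by rw [← k, i1 (show h f = h (a z) by rw [k, ← i] at e1; linarith), w1])
  exact ab z t v (congrArg ρ i.symm)

end Pool.Agent.H.MP_6a38e0_lc
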